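import Pool.Agent.Helper14.W3.StB

/-!
# W3 MODULE Com: relations between `t`, `σ`, `W`, `*`
-/

set_option autoImplicit false

namespace Pool.Agent.Helper9.W3

open Pool.Agent.Helper14.CV Pool.Agent.Helper14.W3

/-- two matrices which differ by a scalar and an element of the group on the left act equally -/
theorem rel {n : ℕ} {G : ℤ → ℤ → ℂ} (h : Sym3 0 n G) (k1 k2 a b c d a1 b1 c1 d1 a2 b2 c2 d2 : ℤ)
    (hk1 : k1 ≠ 0) (hk2 : k2 ≠ 0) (hd : a * d - b * c = 1) (hc : (3 : ℤ) ^ n ∣ c)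
    (hd1 : a1 * d1 - b1 * c1 ≠ 0) (hd2 : a2 * d2 - b2 * c2 ≠ 0)
    (e1 : k1 * a1 = k2 * (a * a2 + b * c2)) (e2 : k1 * b1 = k2 * (a * b2 + b * d2))
    (e3 : k1 * c1 = k2 * (c * a2 + d * c2)) (e4 : k1 * d1 = k2 * (c * b2 + d * d2)) :
    EqC (act a1 b1 c1 d1 G) (act a2 b2 c2 d2 G) := by
  have h1 : EqC (act (k1 * a1) (k1 * b1) (k1 * c1) (k1 * d1) G) (act a1 b1 c1 d1 G) :=
    h.1.scale k1 hk1 hd1
  have hdet : (a * a2 + b * c2) * (c * b2 + d * d2) - (a * b2 + b * d2) * (c * a2 + d * c2) ≠ 0 := by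
    have e : (a * a2 + b * c2) * (c * b2 + d * d2) - (a * b2 + b * d2) * (c * a2 + d * c2)
        = (a * d - b * c) * (a2 * d2 - b2 * c2) := by ring
    rw [e, hd, one_mul]
    exact hd2
  have h2 := h.1.scale k2 hk2 hdet
  have h3 : EqC (act a2 b2 c2 d2 (act a b c d G)) (act a2 b2 c2 d2 G) :=
    (h.2 a b c d hd (by rw [pow_zero]; exact one_dvd _) hc).act hd2
  rw [act_act] at h3
  rw [e1, e2, e3, e4] at h1
  exact h1.symm.trans (h2.trans h3)

theorem hCom : S3Com := by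
  intro n G hn h
  obtain ⟨m, rfl⟩ : ∃ m, n = m + 3 := ⟨n - 3, by omega⟩
  obtain ⟨u, hu⟩ : ∃ u : ℤ, u = 3 ^ m := ⟨_, rfl⟩
  have hu0 : u ≠ 0 := by rw [hu]; positivity
  have e1 : (3 : ℤ) ^ (m + 3 - 1) = 9 * u := by
    rw [show m + 3 - 1 = m + 2 by omega, pow_add, hu]; ring
  have e2 : (3 : ℤ) ^ (m + 3) = 27 * u := by
    rw [pow_add, hu]; ring
  rw [e1, e2]
  have key := fun k1 k2 a b c d a1 b1 c1 d1 a2 b2 c2 d2 hk1 hk2 hd (hc : 27 * u ∣ c) =>
    rel h k1 k2 a b c d a1 b1 c1 d1 a2 b2 c2 d2 hk1 hk2 hd (by rw [e2]; exact hc)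
  have h27 : (27 : ℤ) * u ≠ 0 := mul_ne_zero (by norm_num) hu0
  refine ⟨?_, ?_, ?_, ?_, ?_, ?_, ?_, ?_, ?_, ?_, ?_, ?_, ?_, ?_⟩
  · rw [act_act]
    have := key 1 3 1 0 0 1 9 6 0 9 3 2 0 3 one_ne_zero (by norm_num) (by ring) (dvd_zero _)
      (by norm_num) (by norm_num) (by ring) (by ring) (by ring) (by ring)
    convert this using 2 <;> ring
  · rw [act_act]
    have := key 1 9 1 1 0 1 9 9 0 9 1 0 0 1 one_ne_zero (by norm_num) (by ring) (dvd_zero _)
      (by norm_num) (by norm_num) (by ring) (by ring) (by ring) (by ring)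
    rw [act_one] at this
    convert this using 2 <;> ring
  · rw [act_act]
    have e : act (1 * 1 + 0 * (9 * u)) (1 * 0 + 0 * 1) (9 * u * 1 + 1 * (9 * u))
        (9 * u * 0 + 1 * 1) G = act 1 0 (2 * (9 * u)) 1 G := by
      congr 1 <;> ring
    rw [e]
    exact EqC.refl _
  · rw [act_act]
    have := key 1 1 1 0 (27 * u) 1 1 0 (27 * u) 1 1 0 0 1 one_ne_zero one_ne_zero (by ring)
      (dvd_refl _) (by norm_num) (by norm_num) (by ring) (by ring) (by ring) (by ring)
    rw [act_one] at this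
    convert this using 2 <;> ring
  · rw [act_act]
    have := key 1 (-(27 * u)) 1 0 0 1 (-(27 * u)) 0 0 (-(27 * u)) 1 0 0 1 one_ne_zero
      (neg_ne_zero.mpr h27) (by ring) (dvd_zero _)
      (by simpa using mul_ne_zero h27 h27) (by norm_num) (by ring) (by ring) (by ring) (by ring)
    rw [act_one] at this
    convert this using 2 <;> ring
  · rw [act_act]
    have e : act (-1 * -1 + 0 * 0) (-1 * 0 + 0 * 1) (0 * -1 + 1 * 0) (0 * 0 + 1 * 1) G = G := by
      norm_num [act_one]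
    rw [e]
    exact EqC.refl _
  · intro i j
    rw [act_act, act_act]
    have := key 1 1 (1 - 3 * i * (j * u)) (i ^ 2 * (j * u)) (-27 * i * (j * u) ^ 2)
      (9 * i ^ 2 * (j * u) ^ 2 + 3 * i * (j * u) + 1)
      3 i (27 * (j * u)) (9 * i * (j * u) + 3) (3 + 9 * i * (j * u)) i (27 * (j * u)) 3
      one_ne_zero one_ne_zero (by ring) ⟨-i * j ^ 2 * u, by ring⟩
      (by ring_nf; norm_num) (by ring_nf; norm_num) (by ring) (by ring) (by ring) (by ring)
    convert this using 2 <;> ring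
  · intro i
    rw [act_act, act_act]
    have := key 1 3 1 0 0 1 0 (-3) (81 * u) (27 * i * u) 0 (-1) (27 * u) (9 * i * u)
      one_ne_zero (by norm_num) (by ring) (dvd_zero _)
      (by simpa using hu0) (by simpa using hu0) (by ring) (by ring) (by ring) (by ring)
    convert this using 2 <;> ring
  · intro i
    rw [act_act, act_act]
    have := key 3 1 1 0 0 1 (-(9 * i * u)) (-1) (27 * u) 0 (-(27 * i * u)) (-3) (81 * u) 0
      (by norm_num) one_ne_zero (by ring) (dvd_zero _)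
      (by simpa using hu0) (by simpa using hu0) (by ring) (by ring) (by ring) (by ring)
    convert this using 2 <;> ring
  · intro i
    rw [act_act, act_act]
    have e : act (-1 * 3 + 0 * 0) (-1 * i + 0 * 3) (0 * 3 + 1 * 0) (0 * i + 1 * 3) G =
        act (3 * -1 + -i * 0) (3 * 0 + -i * 1) (0 * -1 + 3 * 0) (0 * 0 + 3 * 1) G := by
      congr 1 <;> ring
    rw [e]
    exact EqC.refl _
  · intro i
    rw [act_act, act_act]
    have e : act (-1 * 1 + 0 * (i * (9 * u))) (-1 * 0 + 0 * 1) (0 * 1 + 1 * (i * (9 * u)))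
        (0 * 0 + 1 * 1) G =
        act (1 * -1 + 0 * 0) (1 * 0 + 0 * 1) (-i * (9 * u) * -1 + 1 * 0)
          (-i * (9 * u) * 0 + 1 * 1) G := by
      congr 1 <;> ring
    rw [e]
    exact EqC.refl _
  · rw [act_act, act_act]
    have := key 1 (-1) 1 0 0 1 0 1 (27 * u) 0 0 (-1) (-(27 * u)) 0
      one_ne_zero (by norm_num) (by ring) (dvd_zero _)
      (by simpa using hu0) (by simpa using hu0) (by ring) (by ring) (by ring) (by ring)
    convert this using 2 <;> ring
  · intro i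
    exact key 1 1 1 1 0 1 3 (i + 3) 0 3 3 i 0 3 one_ne_zero one_ne_zero (by ring) (dvd_zero _)
      (by norm_num) (by norm_num) (by ring) (by ring) (by ring) (by ring)
  · intro i
    exact key 1 1 1 0 (27 * u) 1 1 0 ((i + 3) * (9 * u)) 1 1 0 (i * (9 * u)) 1
      one_ne_zero one_ne_zero (by ring) (dvd_refl _) (by norm_num) (by norm_num)
      (by ring) (by ring) (by ring) (by ring)

end Pool.Agent.Helper9.W3
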