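import Pool.Agent.Helper14.W3.StB

/-!
# W3 MODULE Lvl: descent of the level
-/

set_option autoImplicit false

namespace Pool.Agent.Helper9.W3

open Pool.Agent.Helper14.CV Pool.Agent.Helper14.W3

private theorem sig_iter {G : ℤ → ℤ → ℂ} {u : ℤ} (hs : EqC (act 1 0 u 1 G) G) (j : ℕ) :
    EqC (act 1 0 (j * u) 1 G) G := by
  induction j with
  | zero =>
    have e : act 1 0 (((0 : ℕ) : ℤ) * u) 1 G = G := by
      rw [Nat.cast_zero, zero_mul, act_one]
    rw [e]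
    exact EqC.refl G
  | succ j ih =>
    have h1 : EqC (act 1 0 (j * u) 1 (act 1 0 u 1 G)) (act 1 0 (j * u) 1 G) :=
      hs.act (by norm_num)
    rw [act_act] at h1
    have e : act (1 * 1 + 0 * ((j : ℤ) * u)) (1 * 0 + 0 * 1) (u * 1 + 1 * ((j : ℤ) * u))
        (u * 0 + 1 * 1) G = act 1 0 (((j + 1 : ℕ) : ℤ) * u) 1 G := by
      congr 1 <;> push_cast <;> ring
    rw [e] at h1
    exact h1.trans ih

/-- part (a): a symbol invariant under `σ` has the lower level -/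
private theorem lvlA {m : ℕ} {G : ℤ → ℤ → ℂ} (h : Sym3 0 (m + 2) G)
    (hs : EqC (act 1 0 (3 ^ (m + 1)) 1 G) G) : Sym3 0 (m + 1) G := by
  refine ⟨h.1, ?_⟩
  intro a b c d hd hb hc
  obtain ⟨c', rfl⟩ := hc
  set u : ℤ := 3 ^ (m + 1) with hu
  have hu3 : (3 : ℤ) ^ (m + 2) = u * 3 := by rw [hu, ← pow_succ]
  have hue : (3 : ℤ) ∣ u := by
    rw [hu, pow_succ]
    exact dvd_mul_left _ _
  have ha : ¬ (3 : ℤ) ∣ a := by
    intro hdv
    have h3 : (3 : ℤ) ∣ a * d - b * (u * c') :=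
      dvd_sub (hdv.mul_right d) ((hue.mul_right c').mul_left b)
    rw [hd] at h3
    omega
  have hj : ∃ j : ℕ, (3 : ℤ) ∣ (j : ℤ) * a + c' := by
    have h1 : a % 3 = 1 ∨ a % 3 = 2 := by omega
    have h2 : c' % 3 = 0 ∨ c' % 3 = 1 ∨ c' % 3 = 2 := by omega
    rcases h1 with h1 | h1 <;> rcases h2 with h2 | h2 | h2
    · exact ⟨0, by push_cast; omega⟩
    · exact ⟨2, by push_cast; omega⟩
    · exact ⟨1, by push_cast; omega⟩
    · exact ⟨0, by push_cast; omega⟩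
    · exact ⟨1, by push_cast; omega⟩
    · exact ⟨2, by push_cast; omega⟩
  obtain ⟨j, hj⟩ := hj
  have h4 : EqC (act a b (j * u * a + u * c') (j * u * b + d) G) G := by
    refine h.2 _ _ _ _ (by linear_combination hd) (by rw [pow_zero]; exact one_dvd _) ?_
    have e : (j : ℤ) * u * a + u * c' = u * ((j : ℤ) * a + c') := by ring
    rw [hu3, e]
    exact mul_dvd_mul_left u hj
  have h5 : EqC (act a b (u * c') d (act 1 0 (j * u) 1 G)) (act a b (u * c') d G) :=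
    (sig_iter hs j).act (by rw [hd]; exact one_ne_zero)
  rw [act_act] at h5
  have e : act (1 * a + 0 * (u * c')) (1 * b + 0 * d) ((j : ℤ) * u * a + 1 * (u * c'))
      ((j : ℤ) * u * b + 1 * d) G = act a b (j * u * a + u * c') (j * u * b + d) G := by
    congr 1 <;> ring
  rw [e] at h5
  exact h5.symm.trans h4

theorem hLvl (hNrm : S3Nrm) : S3Lvl := by
  intro n G hn h
  obtain ⟨m, rfl⟩ : ∃ m, n = m + 2 := ⟨n - 2, by omega⟩
  have e0 : m + 2 - 1 = m + 1 := by omega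
  rw [e0]
  refine ⟨fun hs => lvlA h hs, fun ht => ?_⟩
  have hW := (hNrm (m + 2) G (by omega) h).1
  refine lvlA hW ?_
  set u : ℤ := 3 ^ (m + 1) with hu
  have hu0 : u ≠ 0 := by rw [hu]; positivity
  have hu3 : (3 : ℤ) ^ (m + 2) = 3 * u := by rw [hu, pow_succ (3 : ℤ) (m + 1)]; ring
  rw [hu3]
  -- invariance under the inverse of `t`
  have h1 : EqC (act 3 (-1) 0 3 (act 3 1 0 3 G)) (act 3 (-1) 0 3 G) := ht.act (by norm_num)
  rw [act_act] at h1
  have e1 : act (3 * 3 + 1 * 0) (3 * (-1) + 1 * 3) (0 * 3 + 3 * 0) (0 * (-1) + 3 * 3) G =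
      act (9 * 1) (9 * 0) (9 * 0) (9 * 1) G := by norm_num
  rw [e1] at h1
  have h2 : EqC (act (9 * 1) (9 * 0) (9 * 0) (9 * 1) G) (act 1 0 0 1 G) :=
    h.1.scale 9 (by norm_num) (by norm_num)
  rw [act_one] at h2
  have h3 : EqC (act 3 (-1) 0 3 G) G := h1.symm.trans h2
  -- compose with `W`
  have h4 : EqC (act 0 (-1) (3 * u) 0 (act 3 (-1) 0 3 G)) (act 0 (-1) (3 * u) 0 G) :=
    h3.act (by simpa using hu0)
  rw [act_act] at h4 ⊢
  have e2 : act (3 * 0 + -1 * (3 * u)) (3 * -1 + -1 * 0) (0 * 0 + 3 * (3 * u)) (0 * -1 + 3 * 0) G =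
      act (3 * (-u)) (3 * (-1)) (3 * (3 * u)) (3 * 0) G := by
    congr 1 <;> ring
  rw [e2] at h4
  have h5 : EqC (act (3 * (-u)) (3 * (-1)) (3 * (3 * u)) (3 * 0) G) (act (-u) (-1) (3 * u) 0 G) :=
    h.1.scale 3 (by norm_num) (by simpa using hu0)
  have e3 : act (0 * 1 + -1 * u) (0 * 0 + -1 * 1) (3 * u * 1 + 0 * u) (3 * u * 0 + 0 * 1) G =
      act (-u) (-1) (3 * u) 0 G := by
    congr 1 <;> ring
  rw [e3]
  exact h5.symm.trans h4

end Pool.Agent.Helper9.W3
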